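import Mathlib

namespace Pool.Agent.Results.MP_6a97ae_co.LowerBound

open Finset Classical

def f (p i : ℕ) : ℕ := 2 * p * i + i ^ 2 % p + 1

lemma step (p i i' s : ℕ) (hp : 0 < p) (hs : 0 < s) (h : f p i' = f p i + s) :
    ∃ j, 0 < j ∧ i' = i + j ∧ 2 * p * j < s + p ∧ s < 2 * p * j + p := by
  unfold f at h
  have a1 := Nat.mod_lt (i ^ 2) hp
  have a2 := Nat.mod_lt (i' ^ 2) hp
  have hlt : i < i' := by
    by_contra hc
    rcases Nat.eq_or_lt_of_le (not_lt.1 hc) with h1 | h1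
    · subst h1; omega
    · have : 2 * p * (i' + 1) ≤ 2 * p * i := Nat.mul_le_mul_left _ h1
      rw [mul_add] at this; omega
  obtain ⟨j, rfl⟩ := Nat.exists_eq_add_of_le hlt.le
  rw [mul_add] at h
  exact ⟨j, by omega, rfl, by omega, by omega⟩

lemma bound (p s : ℕ) (hp : p.Prime) (h2 : p ≠ 2) (hs : 0 < s) :
    ((range (p ^ 2)).filter fun i => ∃ i', f p i' = f p i + s).card ≤ 2 * s := by
  haveI := Fact.mk hp
  have hp0 := hp.pos
  by_cases hb : p ^ 2 ≤ 2 * s
  · exact (card_filter_le _ _).trans (by simpa using hb)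
  rcases (filter (fun i => ∃ i', f p i' = f p i + s) (range (p ^ 2))).eq_empty_or_nonempty with
    h | ⟨i0, hi0⟩
  · rw [h]; simp
  obtain ⟨i0', h0⟩ := (mem_filter.1 hi0).2
  obtain ⟨j0, b1, -, b3, -⟩ := step p i0 i0' s hp0 hs h0
  have hsp : p ≤ 2 * s := by nlinarith
  refine le_trans ?_ hsp
  conv_rhs => rw [← card_range p]
  apply card_le_card_of_injOn (fun i => i / p)
  · intro i hi
    have := mem_range.1 (mem_filter.1 (mem_coe.1 hi)).1
    exact mem_coe.2 (mem_range.2 ((Nat.div_lt_iff_lt_mul hp0).2 (by nlinarith)))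
  · intro x hx y hy hxy
    obtain ⟨x', h1⟩ := (mem_filter.1 (mem_coe.1 hx)).2
    obtain ⟨y', h3⟩ := (mem_filter.1 (mem_coe.1 hy)).2
    obtain ⟨j, c1, rfl, c3, c4⟩ := step p x x' s hp0 hs h1
    obtain ⟨k, d1, rfl, d3, d4⟩ := step p y y' s hp0 hs h3
    have hjk : j = k := by
      rcases lt_trichotomy j k with h | h | h
      · have : 2 * p * (j + 1) ≤ 2 * p * k := Nat.mul_le_mul_left _ h
        rw [mul_add] at this; omega
      · exact h
      · have : 2 * p * (k + 1) ≤ 2 * p * j := Nat.mul_le_mul_left _ h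
        rw [mul_add] at this; omega
    subst hjk
    have hjp : j < p := by
      by_contra hc
      have : 2 * p * p ≤ 2 * p * j := Nat.mul_le_mul_left _ (not_lt.1 hc)
      nlinarith
    have e1 := congrArg (Nat.cast : ℕ → ZMod p) h1
    have e2 := congrArg (Nat.cast : ℕ → ZMod p) h3
    simp only [f, Nat.cast_add, Nat.cast_mul, ZMod.natCast_mod, Nat.cast_pow, ZMod.natCast_self,
      mul_zero, zero_mul] at e1 e2
    have hj : ((2 * j : ℕ) : ZMod p) ≠ 0 := by
      rw [Ne, ZMod.natCast_eq_zero_iff]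
      intro hd
      rcases (Nat.Prime.dvd_mul hp).1 hd with h | h
      · exact h2 ((Nat.prime_dvd_prime_iff_eq hp Nat.prime_two).1 h)
      · have := Nat.le_of_dvd c1 h; omega
    have e3 : (x : ZMod p) = y := by
      apply mul_left_cancel₀ hj
      push_cast
      linear_combination e1 - e2
    rw [ZMod.natCast_eq_natCast_iff'] at e3
    have hxy' : x / p = y / p := hxy
    rw [← Nat.div_add_mod x p, ← Nat.div_add_mod y p, hxy', e3]

theorem result (n : ℕ) (hn : 128 ≤ n) : ∃ A : Finset ℕ, A ⊆ Icc 1 n ∧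
    (∀ s : ℕ, 0 < s → ((A ×ˢ A).filter fun z => z.2 = z.1 + s).card ≤ 2 * s) ∧
    n ^ 2 ≤ 256 * A.card ^ 3 := by
  have hex : ∃ m, n < 16 * (m + 1) ^ 3 := ⟨n, by nlinarith [Nat.le_self_pow (n := 3) (by norm_num) (n + 1)]⟩
  have hm := Nat.find_spec hex
  have hm2 : 2 ≤ Nat.find hex := by
    by_contra hc
    have : Nat.find hex + 1 ≤ 2 := by omega
    have := Nat.pow_le_pow_left this 3
    omega
  have hm3 := Nat.find_min hex (m := Nat.find hex - 1) (by omega)
  rw [show Nat.find hex - 1 + 1 = Nat.find hex by omega] at hm3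
  set m := Nat.find hex
  obtain ⟨p, hp, h1, h2⟩ := Nat.exists_prime_lt_and_le_two_mul m (by omega)
  have u1 : p ^ 3 ≤ (2 * m) ^ 3 := Nat.pow_le_pow_left h2 3
  have u2 : (m + 1) ^ 3 ≤ p ^ 3 := Nat.pow_le_pow_left h1 3
  have hinj : Function.Injective (f p) := by
    intro x y h
    by_contra hc
    unfold f at h
    have a1 := Nat.mod_lt (x ^ 2) hp.pos
    have a2 := Nat.mod_lt (y ^ 2) hp.pos
    rcases lt_or_gt_of_ne hc with h' | h'
    · have : 2 * p * (x + 1) ≤ 2 * p * y := Nat.mul_le_mul_left _ h'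
      rw [mul_add] at this; omega
    · have : 2 * p * (y + 1) ≤ 2 * p * x := Nat.mul_le_mul_left _ h'
      rw [mul_add] at this; omega
  refine ⟨(range (p ^ 2)).image (f p), ?_, fun s hs => ?_, ?_⟩
  · intro a ha
    obtain ⟨i, hi, rfl⟩ := mem_image.1 ha
    have a1 := Nat.mod_lt (i ^ 2) hp.pos
    have : 2 * p * (i + 1) ≤ 2 * p * p ^ 2 := Nat.mul_le_mul_left _ (mem_range.1 hi)
    have e : 2 * p * p ^ 2 = 2 * p ^ 3 := by ring
    have e' : (2 * m) ^ 3 = 8 * m ^ 3 := by ring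
    rw [mul_add] at this
    unfold f
    rw [mem_Icc]; omega
  · refine le_trans ?_ (bound p s hp (by omega) hs)
    refine le_trans (card_le_card (t := ((range (p ^ 2)).filter fun i => ∃ i', f p i' = f p i + s).image
      (fun i => (f p i, f p i + s))) ?_) card_image_le
    rintro ⟨a, b⟩ hz
    simp only [mem_filter, mem_product, mem_image] at hz ⊢
    obtain ⟨⟨⟨i, hi, rfl⟩, ⟨i', -, rfl⟩⟩, h⟩ := hz
    exact ⟨i, ⟨hi, i', h⟩, by rw [h]⟩
  · rw [card_image_of_injective _ hinj, card_range]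
    have : n ≤ 16 * p ^ 3 := by omega
    calc n ^ 2 ≤ (16 * p ^ 3) ^ 2 := Nat.pow_le_pow_left this 2
      _ = _ := by ring

end Pool.Agent.Results.MP_6a97ae_co.LowerBound
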